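import Mathlib

set_option autoImplicit false

/-!
# Large monochromatic sets for colourings of branches

`I` is a well-ordered index set, the points are the functions `I → Bool`, the colours are the
elements of a set `C` with a rank function `ρ : C → I`, and a pair of points with first difference
`d` has a colour of rank below `max d m`. Then there is a monochromatic set of more than `lam`
points.
-/

open Cardinal Set

namespace Pool.Agent.Y911.DR

universe u

section

variable {I : Type u} [LinearOrder I] [WellFoundedLT I] {C : Type u} {ρ : C → I}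

/-- All pairs of different elements of `S` have the colour `ν`. -/
def Mono {X D : Type*} (c : X → X → D) (ν : D) (S : Set X) : Prop :=
  ∀ a ∈ S, ∀ b ∈ S, a ≠ b → c a b = ν

theorem Mono.subset {X D : Type*} {c : X → X → D} {ν : D} {S T : Set X} (h : Mono c ν T)
    (hST : S ⊆ T) : Mono c ν S := fun a ha b hb => h a (hST ha) b (hST hb)

/-- Monochromatic sets extend to maximal ones; they are small if there are no large ones. -/
theorem exists_max {X : Type u} {D : Type*} {c : X → X → D} {ν : D} {N : Set X} {x : X}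
    {lam : Cardinal.{u}} (hno : ¬ ∃ Y : Set X, lam < #Y ∧ ∃ ν, Mono c ν Y) :
    ∃ F : Set X, (F ⊆ N ∧ #F ≤ lam) ∧ Mono c ν (insert x F) ∧
      ∀ y ∈ N, y ∉ F → ¬ Mono c ν (insert x (insert y F)) := by
  classical
  obtain ⟨F, hF⟩ := zorn_subset {F : Set X | F ⊆ N ∧ Mono c ν (insert x F)} (by
    intro K hK hchain
    refine ⟨⋃₀ K, ⟨sUnion_subset fun s hs => (hK hs).1, ?_⟩, fun s hs => subset_sUnion_of_mem hs⟩
    intro a ha b hb hab
    rcases ha with rfl | ⟨s, hs, has⟩
    · rcases hb with rfl | ⟨t, ht, hbt⟩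
      · exact absurd rfl hab
      · exact (hK ht).2 _ (mem_insert _ _) _ (mem_insert_of_mem _ hbt) hab
    · rcases hb with rfl | ⟨t, ht, hbt⟩
      · exact (hK hs).2 _ (mem_insert_of_mem _ has) _ (mem_insert _ _) hab
      · rcases hchain.total hs ht with h | h
        · exact (hK ht).2 _ (mem_insert_of_mem _ (h has)) _ (mem_insert_of_mem _ hbt) hab
        · exact (hK hs).2 _ (mem_insert_of_mem _ has) _ (mem_insert_of_mem _ (h hbt)) hab)
  refine ⟨F, ⟨hF.prop.1, ?_⟩, hF.prop.2, ?_⟩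
  · by_contra hcon
    exact hno ⟨F, not_le.mp hcon, ν, hF.prop.2.subset (subset_insert _ _)⟩
  · intro y hy hyF hmono
    have h1 : insert y F ∈ {F : Set X | F ⊆ N ∧ Mono c ν (insert x F)} :=
      ⟨insert_subset hy hF.prop.1, hmono⟩
    exact hyF (hF.le_of_ge h1 (subset_insert _ _) (mem_insert _ _))

/-- The points which are compatible with the sets `M ν`, `ν` of rank below `α`. -/
def Q (ρ : C → I) (c : (I → Bool) → (I → Bool) → C) (α : I)
    (M : {ν : C // ρ ν < α} → Set (I → Bool)) : Set (I → Bool) :=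
  {z | ∀ ν : {ν : C // ρ ν < α}, z ∉ M ν ∧ Mono c ν.1 (insert z (M ν))}

theorem exists_first {x y : I → Bool} (h : x ≠ y) : ∃ d, x d ≠ y d ∧ ∀ i < d, x i = y i := by
  have h1 : ({i | x i ≠ y i} : Set I).Nonempty := by
    by_contra hcon
    rw [Set.not_nonempty_iff_eq_empty] at hcon
    apply h
    funext i
    by_contra h2
    exact (Set.eq_empty_iff_forall_notMem.mp hcon i) h2
  refine ⟨(wellFounded_lt : WellFounded ((· < ·) : I → I → Prop)).min _ h1,
    WellFounded.min_mem _ _ h1, fun i hi => ?_⟩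
  by_contra h2
  exact WellFounded.not_lt_min _ _ (show i ∈ {i | x i ≠ y i} from h2) hi

/-- The hypotheses on the cardinals. -/
structure Ctx (ρ : C → I) (U : Type u) (lam : Cardinal.{u}) : Prop where
  inf : ℵ₀ ≤ #U
  seg : ∀ α : I, (2 : Cardinal.{u}) ^ #(Iio α) ≤ 2 ^ #U
  cseg : ∀ α : I, (2 : Cardinal.{u}) ^ #{ν : C // ρ ν ≤ α} ≤ 2 ^ #U
  card : #I ≤ 2 ^ #U
  big : (2 : Cardinal.{u}) ^ #U < 2 ^ #I
  nomax : ∀ α : I, ∃ β, α < β
  reg : ∀ T : Type u, (2 : Cardinal.{u}) ^ #T ≤ 2 ^ #U → ∀ f : T → I, ∃ b, ∀ i, f i < b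
  hlam : (2 : Cardinal.{u}) ^ lam ≤ 2 ^ #U

variable {U : Type u} {lam : Cardinal.{u}}

theorem Ctx.inf2 (h : Ctx ρ U lam) : ℵ₀ ≤ (2 : Cardinal.{u}) ^ #U :=
  h.inf.trans (Cardinal.cantor _).le

theorem Ctx.pow (h : Ctx ρ U lam) {θ : Cardinal.{u}} (hθ : (2 : Cardinal.{u}) ^ θ ≤ 2 ^ #U) :
    ((2 : Cardinal.{u}) ^ #U) ^ θ ≤ 2 ^ #U := by
  calc ((2 : Cardinal.{u}) ^ #U) ^ θ = (2 ^ θ) ^ #U := by
        rw [← Cardinal.power_mul, ← Cardinal.power_mul, mul_comm]
    _ ≤ (2 ^ #U) ^ #U := Cardinal.power_le_power_right hθ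
    _ = 2 ^ #U := by rw [← Cardinal.power_mul, Cardinal.mul_eq_self h.inf]

theorem Ctx.clt (h : Ctx ρ U lam) (α : I) : (2 : Cardinal.{u}) ^ #{ν : C // ρ ν < α} ≤ 2 ^ #U :=
  (Cardinal.power_le_power_left two_ne_zero (Cardinal.mk_subtype_mono fun _ hν => le_of_lt hν)).trans
    (h.cseg α)

theorem Ctx.ceq (h : Ctx ρ U lam) (α : I) : (2 : Cardinal.{u}) ^ #{ν : C // ρ ν = α} ≤ 2 ^ #U :=
  (Cardinal.power_le_power_left two_ne_zero (Cardinal.mk_subtype_mono fun _ hν => le_of_eq hν)).trans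
    (h.cseg α)

/-- small subsets of `A` -/
abbrev Sm (lam : Cardinal.{u}) (A : Set (I → Bool)) : Type u :=
  {F : Set (I → Bool) // F ⊆ A ∧ #F ≤ lam}

theorem Ctx.sm (h : Ctx ρ U lam) {A : Set (I → Bool)} (hA : #A ≤ 2 ^ #U) :
    #(Sm lam A) ≤ 2 ^ #U := by
  refine (Cardinal.mk_bounded_subset_le A lam).trans ?_
  refine (Cardinal.power_le_power_right (max_le hA h.inf2)).trans ?_
  exact h.pow h.hlam

/-- A small set of points closed under witnesses. -/
theorem Ctx.exists_closed (h : Ctx ρ U lam) (c : (I → Bool) → (I → Bool) → C) :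
    ∃ N : Set (I → Bool), #N ≤ 2 ^ #U ∧ ∀ (α : I) (M : {ν : C // ρ ν < α} → Set (I → Bool)),
      (∀ ν, M ν ⊆ N ∧ #(M ν) ≤ lam) → (∃ z ∈ Q ρ c α M, ∃ z' ∈ Q ρ c α M, z α ≠ z' α) →
      ∃ z ∈ Q ρ c α M, ∃ z' ∈ Q ρ c α M, z ∈ N ∧ z' ∈ N ∧ z α ≠ z' α := by
  classical
  -- witnesses
  have hW : ∀ (a : Σ α : I, ({ν : C // ρ ν < α} → Set (I → Bool))),
      ∃ w : (I → Bool) × (I → Bool),
      (∃ z ∈ Q ρ c a.1 a.2, ∃ z' ∈ Q ρ c a.1 a.2, z a.1 ≠ z' a.1) →
      w.1 ∈ Q ρ c a.1 a.2 ∧ w.2 ∈ Q ρ c a.1 a.2 ∧ w.1 a.1 ≠ w.2 a.1 := by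
    intro a
    by_cases h1 : ∃ z ∈ Q ρ c a.1 a.2, ∃ z' ∈ Q ρ c a.1 a.2, z a.1 ≠ z' a.1
    · obtain ⟨z, hz, z', hz', h2⟩ := h1
      exact ⟨(z, z'), fun _ => ⟨hz, hz', h2⟩⟩
    · exact ⟨(fun _ => false, fun _ => false), fun h2 => absurd h2 h1⟩
  choose W hW using hW
  let step : Set (I → Bool) → Set (I → Bool) := fun A =>
    A ∪ {w | ∃ a : Σ α : I, ({ν : C // ρ ν < α} → Set (I → Bool)),
      (∀ ν, a.2 ν ⊆ A ∧ #(a.2 ν) ≤ lam) ∧ (w = (W a).1 ∨ w = (W a).2)}
  have hinf := h.inf2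
  have hstep : ∀ A : Set (I → Bool), #A ≤ 2 ^ #U → #(step A) ≤ 2 ^ #U := by
    intro A hA
    let G : (Σ α : I, ({ν : C // ρ ν < α} → Sm lam A)) × Bool → (I → Bool) := fun p =>
      let a : Σ α : I, ({ν : C // ρ ν < α} → Set (I → Bool)) :=
        ⟨p.1.1, fun ν => (p.1.2 ν).1⟩
      if p.2 then (W a).1 else (W a).2
    have h1 : {w | ∃ a : Σ α : I, ({ν : C // ρ ν < α} → Set (I → Bool)),
        (∀ ν, a.2 ν ⊆ A ∧ #(a.2 ν) ≤ lam) ∧ (w = (W a).1 ∨ w = (W a).2)} ⊆ range G := by
      rintro w ⟨⟨α, M⟩, hM, hw⟩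
      rcases hw with rfl | rfl
      · refine ⟨(⟨α, fun ν => ⟨M ν, hM ν⟩⟩, true), ?_⟩
        show (if true = true then (W ⟨α, _⟩).1 else (W ⟨α, _⟩).2) = _
        rw [if_pos rfl]
      · refine ⟨(⟨α, fun ν => ⟨M ν, hM ν⟩⟩, false), ?_⟩
        show (if false = true then (W ⟨α, _⟩).1 else (W ⟨α, _⟩).2) = _
        rw [if_neg (by simp)]
    have h2 : #(range G) ≤ 2 ^ #U := by
      refine Cardinal.mk_range_le.trans ?_
      rw [Cardinal.mk_prod, Cardinal.mk_bool, Cardinal.lift_uzero, Cardinal.lift_ofNat]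
      have h3 : #(Σ α : I, ({ν : C // ρ ν < α} → Sm lam A)) ≤ 2 ^ #U := by
        rw [Cardinal.mk_sigma]
        refine (Cardinal.sum_le_sum _ (fun _ : I => (2 : Cardinal.{u}) ^ #U) ?_).trans ?_
        · intro α
          rw [Cardinal.mk_arrow, Cardinal.lift_id, Cardinal.lift_id]
          exact (Cardinal.power_le_power_right (h.sm hA)).trans (h.pow (h.clt α))
        · rw [Cardinal.sum_const']
          exact (mul_le_mul' h.card le_rfl).trans (Cardinal.mul_eq_self hinf).le
      calc #(Σ α : I, ({ν : C // ρ ν < α} → Sm lam A)) * 2 ≤ 2 ^ #U * 2 ^ #U :=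
            mul_le_mul' h3 ((Cardinal.nat_lt_aleph0 2).le.trans hinf)
        _ = 2 ^ #U := Cardinal.mul_eq_self hinf
    refine (Cardinal.mk_union_le _ _).trans ?_
    refine (add_le_add hA ((Cardinal.mk_le_mk_of_subset h1).trans h2)).trans ?_
    rw [Cardinal.add_eq_self hinf]
  let wf : WellFounded ((· < ·) : I → I → Prop) := wellFounded_lt
  let Nf : I → Set (I → Bool) := wf.fix fun j rec => ⋃ i : Iio j, step (rec i.1 i.2)
  have hNf : ∀ j, Nf j = ⋃ i : Iio j, step (Nf i.1) := fun j => wf.fix_eq _ j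
  have hcard : ∀ j, #(Nf j) ≤ 2 ^ #U := by
    intro j
    induction j using WellFoundedLT.induction with
    | _ j ih =>
      rw [hNf]
      refine (Cardinal.mk_iUnion_le_sum_mk).trans ?_
      refine (Cardinal.sum_le_sum _ (fun _ : Iio j => (2 : Cardinal.{u}) ^ #U)
        fun i => hstep _ (ih i.1 i.2)).trans ?_
      rw [Cardinal.sum_const']
      refine (mul_le_mul' (((Cardinal.cantor _).le).trans (h.seg j)) le_rfl).trans ?_
      exact (Cardinal.mul_eq_self hinf).le
  have hsub : ∀ i j, i < j → step (Nf i) ⊆ Nf j := by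
    intro i j hij
    rw [hNf j]
    exact subset_iUnion (fun i : Iio j => step (Nf i.1)) ⟨i, hij⟩
  have hsub' : ∀ i j, i ≤ j → Nf i ⊆ Nf j := by
    intro i j hij
    rcases hij.eq_or_lt with rfl | hij
    · exact Subset.rfl
    · exact subset_union_left.trans (hsub i j hij)
  refine ⟨⋃ j, Nf j, ?_, ?_⟩
  · refine (Cardinal.mk_iUnion_le_sum_mk).trans ?_
    refine (Cardinal.sum_le_sum _ (fun _ : I => (2 : Cardinal.{u}) ^ #U) hcard).trans ?_
    rw [Cardinal.sum_const']
    exact (mul_le_mul' h.card le_rfl).trans (Cardinal.mul_eq_self hinf).le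
  · intro α M hM hex
    have h1 : ∀ ν : {ν : C // ρ ν < α}, ∃ j, M ν ⊆ Nf j := by
      intro ν
      have h2 : ∀ t : M ν, ∃ j, (t : I → Bool) ∈ Nf j := fun t =>
        mem_iUnion.mp ((hM ν).1 t.2)
      choose f hf using h2
      obtain ⟨b, hb⟩ := h.reg (M ν)
        ((Cardinal.power_le_power_left two_ne_zero (hM ν).2).trans h.hlam) f
      exact ⟨b, fun t ht => hsub' _ _ (hb ⟨t, ht⟩).le (hf ⟨t, ht⟩)⟩
    choose f hf using h1
    obtain ⟨b, hb⟩ := h.reg _ (h.clt α) f
    obtain ⟨b', hb'⟩ := h.nomax b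
    have h3 : ∀ ν, M ν ⊆ Nf b := fun ν =>
      (hf ν).trans (hsub' _ _ (hb ν).le)
    obtain ⟨w1, w2, w3⟩ := hW ⟨α, M⟩ hex
    refine ⟨_, w1, _, w2, ?_, ?_, w3⟩
    · exact mem_iUnion.mpr ⟨b', hsub b b' hb' (Or.inr ⟨⟨α, M⟩, fun ν => ⟨h3 ν, (hM ν).2⟩, Or.inl rfl⟩)⟩
    · exact mem_iUnion.mpr ⟨b', hsub b b' hb' (Or.inr ⟨⟨α, M⟩, fun ν => ⟨h3 ν, (hM ν).2⟩, Or.inr rfl⟩)⟩

/-- The core theorem. -/
theorem Ctx.core (h : Ctx ρ U lam) (m : I) (c : (I → Bool) → (I → Bool) → C)
    (hsymm : ∀ x y, c x y = c y x)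
    (hc : ∀ x y d, x d ≠ y d → (∀ i < d, x i = y i) → ρ (c x y) < max d m) :
    ∃ Y : Set (I → Bool), lam < #Y ∧ ∃ ν, Mono c ν Y := by
  classical
  by_contra hno
  obtain ⟨N, hN, hcl⟩ := h.exists_closed c
  have hinf := h.inf2
  -- the maximal small sets
  have hmax := fun (x : I → Bool) (ν : C) => exists_max (c := c) (ν := ν) (N := N) (x := x) hno
  choose M hMN hM hMmax using hmax
  -- the prediction property
  have key : ∀ x x' : I → Bool, x ∉ N → x' ∉ N → ∀ β, x β ≠ x' β → (∀ i < β, x i = x' i) →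
      m ≤ β → ∃ ν, ρ ν < β ∧ M x ν ≠ M x' ν := by
    intro x x' hx hx' β hβ _ hmβ
    by_contra hcon
    push Not at hcon
    have h1 : ∀ z : I → Bool, z ∉ N → z ∈ Q ρ c β (fun ν => M z ν.1) := by
      intro z hz ν
      exact ⟨fun hzν => hz ((hMN z ν.1).1 hzν), hM z ν.1⟩
    have h2 : x' ∈ Q ρ c β (fun ν => M x ν.1) := by
      have h3 := h1 x' hx'
      have h4 : (fun ν : {ν : C // ρ ν < β} => M x' ν.1) =
          (fun ν : {ν : C // ρ ν < β} => M x ν.1) := by
        funext ν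
        exact (hcon ν.1 ν.2).symm
      rwa [h4] at h3
    obtain ⟨z, hz, z', hz', hzN, hzN', hne⟩ :=
      hcl β (fun ν => M x ν.1) (fun ν => hMN x ν.1) ⟨x, h1 x hx, x', h2, hβ⟩
    have h5 : ∀ y ∈ Q ρ c β (fun ν => M x ν.1), y ∈ N → y β = x β := by
      intro y hy hyN
      have hxy : x ≠ y := fun h => hx (h ▸ hyN)
      obtain ⟨d, hd, hd'⟩ := exists_first hxy
      have h6 := hc x y d hd hd'
      by_contra h7
      have h8 : d ≤ β := by
        by_contra h9
        push Not at h9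
        exact h7 (hd' β h9).symm
      have h9 : ρ (c x y) < β := h6.trans_le (max_le h8 hmβ)
      obtain ⟨h10, h11⟩ := hy ⟨c x y, h9⟩
      refine hMmax x (c x y) y hyN h10 ?_
      have h12 := hM x (c x y)
      intro a ha b hb hab
      rcases ha with rfl | rfl | ha <;> rcases hb with rfl | rfl | hb
      · exact absurd rfl hab
      · rfl
      · exact h12 _ (mem_insert _ _) _ (mem_insert_of_mem _ hb) hab
      · exact hsymm _ _
      · exact absurd rfl hab
      · exact h11 _ (mem_insert _ _) _ (mem_insert_of_mem _ hb) hab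
      · exact h12 _ (mem_insert_of_mem _ ha) _ (mem_insert _ _) hab
      · exact h11 _ (mem_insert_of_mem _ ha) _ (mem_insert _ _) hab
      · exact h12 _ (mem_insert_of_mem _ ha) _ (mem_insert_of_mem _ hb) hab
    exact hne ((h5 z hz hzN).trans (h5 z' hz' hzN').symm)
  -- coding of the small sets, rank by rank
  have hφ : ∀ γ : I, ∃ φ : ({ν : C // ρ ν = γ} → Sm lam N) → (U → Bool),
      Function.Injective φ := by
    intro γ
    have h1 : #({ν : C // ρ ν = γ} → Sm lam N) ≤ #(U → Bool) := by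
      rw [Cardinal.mk_arrow, Cardinal.lift_id, Cardinal.lift_id]
      refine (Cardinal.power_le_power_right (h.sm hN)).trans ?_
      refine (h.pow (h.ceq γ)).trans ?_
      simp
    obtain ⟨g⟩ := (Cardinal.le_def _ _).mp h1
    exact ⟨g, g.injective⟩
  choose φ hφ using hφ
  let S : (I → Bool) → U → (I → Bool) := fun x i =>
    if x ∈ N then x else fun γ => φ γ (fun ν => ⟨M x ν.1, hMN x ν.1⟩) i
  let val : (I → Bool) → List U → (I → Bool) := fun x s => s.foldl S x
  have hval : ∀ x s i, val x (s ++ [i]) = S (val x s) i := by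
    intro x s i
    simp [val, List.foldl_append]
  let D : (I → Bool) → List U → (Iio m → Bool) × Option N := fun x s =>
    (fun i => val x s i, if h : val x s ∈ N then some ⟨_, h⟩ else none)
  -- two points with the same data
  have hD : ¬ Function.Injective D := by
    intro hinj
    have h1 := Cardinal.mk_le_of_injective hinj
    have h2 : #(List U → (Iio m → Bool) × Option N) ≤ 2 ^ #U := by
      have hUinf : Infinite U := Cardinal.infinite_iff.mpr h.inf
      rw [Cardinal.mk_arrow, Cardinal.lift_id, Cardinal.lift_id, Cardinal.mk_list_eq_mk]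
      have h3 : #((Iio m → Bool) × Option N) ≤ 2 ^ #U := by
        rw [Cardinal.mk_prod, Cardinal.lift_id, Cardinal.lift_id]
        have h4 : #(Iio m → Bool) ≤ 2 ^ #U := by
          simp only [Cardinal.mk_pi, Cardinal.mk_bool, Cardinal.prod_const, Cardinal.lift_id,
            Cardinal.lift_ofNat, Cardinal.lift_uzero]
          exact h.seg m
        have h5 : #(Option N) ≤ 2 ^ #U := by
          rw [Cardinal.mk_option]
          refine (add_le_add hN (Cardinal.one_le_aleph0.trans hinf)).trans ?_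
          rw [Cardinal.add_eq_self hinf]
        exact (mul_le_mul' h4 h5).trans (Cardinal.mul_eq_self hinf).le
      refine (Cardinal.power_le_power_right h3).trans ?_
      rw [← Cardinal.power_mul, Cardinal.mul_eq_self h.inf]
    have h3 : #(I → Bool) = 2 ^ #I := by simp
    rw [h3] at h1
    exact absurd (h1.trans h2) (not_le.mpr h.big)
  simp only [Function.Injective, not_forall] at hD
  obtain ⟨x, x', hDx, hne⟩ := hD
  have hmain : ∀ β : I, ∀ s : List U, val x s β ≠ val x' s β →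
      (∀ i < β, val x s i = val x' s i) → False := by
    intro β
    induction β using WellFoundedLT.induction with
    | _ β ih =>
      intro s hβ hβ'
      have h1 := congrFun hDx s
      have h2 : (fun i : Iio m => val x s i) = (fun i : Iio m => val x' s i) :=
        congrArg Prod.fst h1
      have h3 : (if h : val x s ∈ N then some (⟨_, h⟩ : N) else none) =
          (if h : val x' s ∈ N then some (⟨_, h⟩ : N) else none) := congrArg Prod.snd h1
      have hmβ : m ≤ β := by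
        by_contra h4
        push Not at h4
        exact hβ (congrFun h2 ⟨β, h4⟩)
      have h4 : val x s ∉ N := by
        intro h5
        rw [dif_pos h5] at h3
        by_cases h6 : val x' s ∈ N
        · rw [dif_pos h6] at h3
          have h7 := congrArg Subtype.val (Option.some.inj h3)
          simp only at h7
          exact hβ (congrFun h7 β)
        · rw [dif_neg h6] at h3
          exact absurd h3 (by simp)
      have h5 : val x' s ∉ N := by
        intro h6
        rw [dif_neg h4, dif_pos h6] at h3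
        exact absurd h3 (by simp)
      obtain ⟨ν, hν, hM'⟩ := key _ _ h4 h5 β hβ hβ' hmβ
      have h6 : φ (ρ ν) (fun ν' => ⟨M (val x s) ν'.1, hMN (val x s) ν'.1⟩) ≠
          φ (ρ ν) (fun ν' => ⟨M (val x' s) ν'.1, hMN (val x' s) ν'.1⟩) := fun h7 => by
        have h8 := congrFun (hφ (ρ ν) h7) ⟨ν, rfl⟩
        exact hM' (congrArg Subtype.val h8)
      obtain ⟨i, hi⟩ := Function.ne_iff.mp h6
      have h7 : val x (s ++ [i]) (ρ ν) ≠ val x' (s ++ [i]) (ρ ν) := by
        rw [hval, hval]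
        simp only [S, if_neg h4, if_neg h5]
        exact hi
      have h8 : val x (s ++ [i]) ≠ val x' (s ++ [i]) := fun h => h7 (by rw [h])
      obtain ⟨d, hd, hd'⟩ := exists_first h8
      have h9 : d ≤ ρ ν := by
        by_contra h9
        push Not at h9
        exact h7 (hd' (ρ ν) h9)
      exact ih d (h9.trans_lt hν) (s ++ [i]) hd hd'
  obtain ⟨d, hd, hd'⟩ := exists_first hne
  exact hmain d [] hd hd'

end

end Pool.Agent.Y911.DR
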