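import Mathlib
import Pool.Agent.Y911.DR.Core

set_option autoImplicit false

/-!
# Branches of length a cardinal and their first differences
-/

open Cardinal Set

namespace Pool.Agent.Y911.DR

universe u

/-- The set `2 ^ κ` of all functions from the ordinals below `κ` to a two-element set. -/
abbrev Branch (κ : Cardinal.{u}) : Type (u + 1) := Iio κ.ord → Bool

/-- The first difference of two branches: the least ordinal at which they differ. -/
noncomputable def Delta {κ : Cardinal.{u}} (x y : Branch κ) : Ordinal.{u} :=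
  sInf {i | ∃ h : i < κ.ord, x ⟨i, h⟩ ≠ y ⟨i, h⟩}

theorem Delta_symm {κ : Cardinal.{u}} (x y : Branch κ) : Delta x y = Delta y x := by
  unfold Delta
  congr 1
  ext i
  constructor
  · rintro ⟨h, h'⟩; exact ⟨h, h'.symm⟩
  · rintro ⟨h, h'⟩; exact ⟨h, h'.symm⟩

theorem Delta_spec {κ : Cardinal.{u}} {x y : Branch κ} (hxy : x ≠ y) :
    ∃ h : Delta x y < κ.ord, x ⟨Delta x y, h⟩ ≠ y ⟨Delta x y, h⟩ := by
  obtain ⟨i, hi⟩ := Function.ne_iff.mp hxy
  have h : {i | ∃ h : i < κ.ord, x ⟨i, h⟩ ≠ y ⟨i, h⟩}.Nonempty := ⟨i.1, i.2, hi⟩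
  exact csInf_mem h

theorem eq_of_lt_Delta {κ : Cardinal.{u}} {x y : Branch κ} {i : Ordinal.{u}} (h : i < κ.ord)
    (hi : i < Delta x y) : x ⟨i, h⟩ = y ⟨i, h⟩ := by
  by_contra hne
  have : Delta x y ≤ i := csInf_le' ⟨h, hne⟩
  exact absurd hi (not_lt.mpr this)

theorem Delta_le_of_ne {κ : Cardinal.{u}} {x y : Branch κ} {i : Ordinal.{u}} (h : i < κ.ord)
    (hne : x ⟨i, h⟩ ≠ y ⟨i, h⟩) : Delta x y ≤ i := csInf_le' ⟨h, hne⟩

theorem mk_Iio_toType {o : Ordinal.{u}} (a : Iio o) :
    #(Iio (Ordinal.ToType.mk a)) = (a : Ordinal.{u}).card := by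
  have e : Iio (Ordinal.ToType.mk a) ≃ Iio (a : Ordinal.{u}) :=
    { toFun := fun x => ⟨(Ordinal.ToType.toOrd x.1 : Iio o), by
        have := x.2
        have h2 : Ordinal.ToType.toOrd x.1 < a := by
          have h3 := (Ordinal.ToType.mk (o := o)).symm.lt_iff_lt.mpr x.2
          simpa using h3
        exact h2⟩
      invFun := fun x => ⟨Ordinal.ToType.mk
          ⟨x.1, lt_trans (show x.1 < a.1 from x.2) (show a.1 < o from a.2)⟩, by
        have h2 : (⟨x.1, lt_trans (show x.1 < a.1 from x.2) (show a.1 < o from a.2)⟩ : Iio o) <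
            a := x.2
        exact (Ordinal.ToType.mk (o := o)).lt_iff_lt.mpr h2⟩
      left_inv := fun x => by
        apply Subtype.ext
        exact OrderIso.apply_symm_apply _ _
      right_inv := fun x => by
        apply Subtype.ext
        simp }
  have h1 := Cardinal.mk_congr_lift e
  rw [Cardinal.mk_Iio_ordinal, Cardinal.lift_lift] at h1
  exact Cardinal.lift_injective h1

section Transfer

variable {κ μ : Cardinal.{u}}

/-- The least exponent at which the power set of `μ` is exceeded. -/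
noncomputable def least (μ : Cardinal.{u}) : Cardinal.{u} :=
  sInf {l : Cardinal.{u} | (2 : Cardinal.{u}) ^ μ < 2 ^ l}

theorem least_spec (μ : Cardinal.{u}) : (2 : Cardinal.{u}) ^ μ < 2 ^ least μ := by
  have h : {l : Cardinal.{u} | (2 : Cardinal.{u}) ^ μ < 2 ^ l}.Nonempty :=
    ⟨(2 : Cardinal.{u}) ^ μ, Cardinal.cantor _⟩
  exact csInf_mem h

theorem least_le {l : Cardinal.{u}} (h : (2 : Cardinal.{u}) ^ μ < 2 ^ l) : least μ ≤ l :=
  csInf_le' h

theorem pow_le_of_lt_least {l : Cardinal.{u}} (h : l < least μ) :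
    (2 : Cardinal.{u}) ^ l ≤ (2 : Cardinal.{u}) ^ μ := by
  by_contra hcon
  push Not at hcon
  exact absurd (least_le hcon) (not_le.mpr h)

theorem lt_least (μ : Cardinal.{u}) : μ < least μ := by
  by_contra hcon
  push Not at hcon
  exact absurd (least_spec μ) (not_lt.mpr (Cardinal.power_le_power_left two_ne_zero hcon))

theorem least_card (μ : Cardinal.{u}) : least μ ≤ 2 ^ μ := least_le (Cardinal.cantor _)

/-- the rank of a finite family of colours is its maximum -/
def rk {I : Type u} [LinearOrder I] {n : ℕ} (v : Fin (n + 1) → I) : I :=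
  Finset.univ.sup' ⟨0, Finset.mem_univ _⟩ v

theorem rk_lt {I : Type u} [LinearOrder I] {n : ℕ} {v : Fin (n + 1) → I} {b : I} :
    rk v < b ↔ ∀ i, v i < b := by
  unfold rk
  rw [Finset.sup'_lt_iff]
  simp

theorem rk_le {I : Type u} [LinearOrder I] {n : ℕ} {v : Fin (n + 1) → I} {b : I} :
    rk v ≤ b ↔ ∀ i, v i ≤ b := by
  unfold rk
  rw [Finset.sup'_le_iff]
  simp

theorem ctx_least (hμ : ℵ₀ ≤ μ) {lam : Cardinal.{u}} (hlam : lam ≤ μ) (n : ℕ) :
    Ctx (rk (I := (least μ).ord.ToType) (n := n)) μ.ord.ToType lam := by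
  have hno : NoMaxOrder (least μ).ord.ToType :=
    Cardinal.noMaxOrder (hμ.trans (lt_least μ).le)
  have hseg : ∀ α : (least μ).ord.ToType, (2 : Cardinal.{u}) ^ #(Iio α) ≤ 2 ^ μ := fun α =>
    pow_le_of_lt_least (Cardinal.mk_Iio_toType_ord_lt α)
  have hseg' : ∀ α : (least μ).ord.ToType, (2 : Cardinal.{u}) ^ #(Iic α) ≤ 2 ^ μ := by
    intro α
    obtain ⟨b, hb⟩ := exists_gt α
    refine le_trans (Cardinal.power_le_power_left two_ne_zero ?_) (hseg b)
    exact Cardinal.mk_le_mk_of_subset fun j hj => lt_of_le_of_lt hj hb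
  refine ⟨?_, ?_, ?_, ?_, ?_, ?_, ?_, ?_⟩
  · rw [Cardinal.mk_ord_toType]; exact hμ
  · intro α
    rw [Cardinal.mk_ord_toType]
    exact hseg α
  · intro α
    rw [Cardinal.mk_ord_toType]
    have h1 : #{v : Fin (n + 1) → (least μ).ord.ToType // rk v ≤ α} ≤
        #(Fin (n + 1) → Iic α) := by
      refine Cardinal.mk_le_of_injective (f := fun v i => ⟨v.1 i, rk_le.mp v.2 i⟩) ?_
      intro v w hvw
      apply Subtype.ext
      funext i
      exact congrArg Subtype.val (congrFun hvw i)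
    have h2 : #(Fin (n + 1) → Iic α) ≤ #(Iic α) + ℵ₀ := by
      rw [Cardinal.mk_arrow, Cardinal.lift_uzero, Cardinal.mk_fin]
      have h3 : (#(Iic α)) ^ (Cardinal.lift.{u} ((n + 1 : ℕ) : Cardinal.{0})) =
          #(Iic α) ^ ((n + 1 : ℕ) : Cardinal.{u}) := by
        rw [Cardinal.lift_natCast]
      rw [h3]
      refine (Cardinal.power_le_power_right (self_le_add_right _ ℵ₀)).trans ?_
      exact Cardinal.power_nat_le (self_le_add_left _ _)
    refine (Cardinal.power_le_power_left two_ne_zero (h1.trans h2)).trans ?_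
    rw [Cardinal.power_add]
    refine (mul_le_mul' (hseg' α) (Cardinal.power_le_power_left two_ne_zero hμ)).trans ?_
    exact (Cardinal.mul_eq_self (hμ.trans (Cardinal.cantor _).le)).le
  · rw [Cardinal.mk_ord_toType, Cardinal.mk_ord_toType]
    exact least_card μ
  · rw [Cardinal.mk_ord_toType, Cardinal.mk_ord_toType]
    exact least_spec μ
  · exact fun α => exists_gt α
  · intro T hT f
    rw [Cardinal.mk_ord_toType] at hT
    by_contra hcon
    push Not at hcon
    have hle : (2 : Cardinal.{u}) ^ least μ ≤ 2 ^ μ := by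
      have h1 : #((least μ).ord.ToType → Bool) ≤ #(∀ i : T, (Iic (f i) → Bool)) := by
        refine Cardinal.mk_le_of_injective
          (f := fun x (i : T) (j : Iic (f i)) => x j.1) ?_
        intro x y hxy
        funext b
        obtain ⟨i, hi⟩ := hcon b
        exact congrFun (congrFun hxy i) ⟨b, hi⟩
      have h2 : ∀ i : T, #(Iic (f i) → Bool) ≤ 2 ^ μ := by
        intro i
        have h4 : #(Iic (f i) → Bool) = 2 ^ #(Iic (f i)) := by simp
        rw [h4]
        exact hseg' _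
      have h3 : #(∀ i : T, (Iic (f i) → Bool)) ≤ (2 ^ μ) ^ #T := by
        rw [Cardinal.mk_pi]
        calc Cardinal.prod (fun i : T => #(Iic (f i) → Bool))
            ≤ Cardinal.prod (fun _ : T => (2 : Cardinal.{u}) ^ μ) :=
              Cardinal.prod_le_prod _ _ h2
          _ = (2 ^ μ) ^ #T := by simp
      have h4 : ((2 : Cardinal.{u}) ^ μ) ^ #T ≤ 2 ^ μ := by
        calc ((2 : Cardinal.{u}) ^ μ) ^ #T = (2 ^ #T) ^ μ := by
              rw [← Cardinal.power_mul, ← Cardinal.power_mul, mul_comm]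
          _ ≤ (2 ^ μ) ^ μ := Cardinal.power_le_power_right hT
          _ = 2 ^ μ := by rw [← Cardinal.power_mul, Cardinal.mul_eq_self hμ]
      have h5 : #((least μ).ord.ToType → Bool) = 2 ^ least μ := by simp
      rw [← h5]
      exact (h1.trans h3).trans h4
    exact absurd (least_spec μ) (not_lt.mpr hle)
  · rw [Cardinal.mk_ord_toType]
    exact Cardinal.power_le_power_left two_ne_zero hlam

/-- Extend a branch of length `least μ` by zeros to a branch of length `κ`. -/
noncomputable def emb (κ μ : Cardinal.{u}) (x : (least μ).ord.ToType → Bool) : Branch κ :=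
  fun i => by
    classical
    exact if h : i.1 < (least μ).ord then x (Ordinal.ToType.mk ⟨i.1, h⟩) else false

theorem emb_apply (x : (least μ).ord.ToType → Bool) (j : Ordinal.{u})
    (hj : j < (least μ).ord) (h1 : j < κ.ord) :
    emb κ μ x ⟨j, h1⟩ = x (Ordinal.ToType.mk ⟨j, hj⟩) := by
  unfold emb
  exact dif_pos hj

/-- The main theorem on families of colourings of branches. -/
theorem main (hμ : ℵ₀ ≤ μ) (hlt : (2 : Cardinal.{u}) ^ μ < 2 ^ κ) (n : ℕ)
    (c : Fin (n + 1) → Branch κ → Branch κ → Ordinal.{u})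
    (hsymm : ∀ k x y, c k x y = c k y x) (μ' : Ordinal.{u}) (hμ' : μ' < (least μ).ord)
    (hc : ∀ k x y, x ≠ y → c k x y < max (Delta x y) μ') :
    ∃ Y : Set (Branch κ), Cardinal.lift.{u + 1} μ < #Y ∧ ∀ k, ∃ ν, Mono (c k) ν Y := by
  classical
  have hle : least μ ≤ κ := least_le hlt
  have hleo : (least μ).ord ≤ κ.ord := Cardinal.ord_le_ord.mpr hle
  have hl0 : (0 : Ordinal.{u}) < (least μ).ord := (zero_le).trans_lt hμ'
  let I := (least μ).ord.ToType
  let E : (I → Bool) → Branch κ := emb κ μ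
  -- the first difference of two images
  have hEd : ∀ (x y : I → Bool) (d : I), x d ≠ y d →
      E x ≠ E y ∧ Delta (E x) (E y) ≤ ((Ordinal.ToType.toOrd d : Iio _) : Ordinal.{u}) := by
    intro x y d hd
    let dd := Ordinal.ToType.toOrd d
    have h1 : dd.1 < κ.ord := lt_of_lt_of_le dd.2 hleo
    have hdd : Ordinal.ToType.mk (⟨dd.1, dd.2⟩ : Iio (least μ).ord) = d := by
      have : (⟨dd.1, dd.2⟩ : Iio (least μ).ord) = Ordinal.ToType.mk.symm d := rfl
      rw [this]
      exact OrderIso.apply_symm_apply _ _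
    have h2 : E x ⟨dd.1, h1⟩ = x d := by
      have := emb_apply (κ := κ) x dd.1 dd.2 h1
      rw [hdd] at this
      exact this
    have h3 : E y ⟨dd.1, h1⟩ = y d := by
      have := emb_apply (κ := κ) y dd.1 dd.2 h1
      rw [hdd] at this
      exact this
    have h4 : E x ⟨dd.1, h1⟩ ≠ E y ⟨dd.1, h1⟩ := by rw [h2, h3]; exact hd
    exact ⟨fun h => h4 (by rw [h]), Delta_le_of_ne h1 h4⟩
  have hEinj : Function.Injective E := by
    intro x y hxy
    by_contra hne
    obtain ⟨d, hd⟩ := Function.ne_iff.mp hne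
    exact (hEd x y d hd).1 hxy
  let c' : (I → Bool) → (I → Bool) → (Fin (n + 1) → I) := fun x y k =>
    if h : c k (E x) (E y) < (least μ).ord then Ordinal.ToType.mk ⟨_, h⟩
    else Ordinal.ToType.mk ⟨0, hl0⟩
  have hbound : ∀ (k : Fin (n + 1)) (x y : I → Bool) (d : I), x d ≠ y d →
      c k (E x) (E y) < max ((Ordinal.ToType.toOrd d : Iio _) : Ordinal.{u}) μ' := by
    intro k x y d hd
    obtain ⟨h1, h2⟩ := hEd x y d hd
    exact (hc k _ _ h1).trans_le (max_le_max h2 le_rfl)
  have hlt' : ∀ (k : Fin (n + 1)) (x y : I → Bool), x ≠ y →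
      c k (E x) (E y) < (least μ).ord := by
    intro k x y hxy
    obtain ⟨d, hd⟩ := Function.ne_iff.mp hxy
    exact (hbound k x y d hd).trans (max_lt (Ordinal.ToType.toOrd d).2 hμ')
  have hsymm' : ∀ x y, c' x y = c' y x := by
    intro x y
    funext k
    simp only [c', hsymm k (E x) (E y)]
  have hc' : ∀ x y d, x d ≠ y d → (∀ i < d, x i = y i) →
      rk (c' x y) < max d (Ordinal.ToType.mk ⟨μ', hμ'⟩) := by
    intro x y d hd _
    rw [rk_lt]
    intro k
    have hxy : x ≠ y := fun h => hd (by rw [h])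
    have h1 := hlt' k x y hxy
    have h2 : c' x y k = Ordinal.ToType.mk ⟨_, h1⟩ := dif_pos h1
    rw [h2]
    have h3 := hbound k x y d hd
    have hdd : Ordinal.ToType.mk (Ordinal.ToType.toOrd d) = d :=
      OrderIso.apply_symm_apply _ _
    rcases lt_max_iff.mp h3 with h4 | h4
    · refine lt_max_of_lt_left ?_
      rw [← hdd]
      exact (OrderIso.lt_iff_lt _).mpr (show (⟨_, h1⟩ : Iio (least μ).ord) < _ from h4)
    · refine lt_max_of_lt_right ?_
      exact (OrderIso.lt_iff_lt _).mpr (show (⟨_, h1⟩ : Iio (least μ).ord) < ⟨μ', hμ'⟩ from h4)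
  obtain ⟨Y, hY, ν, hν⟩ := (ctx_least hμ le_rfl n).core (Ordinal.ToType.mk ⟨μ', hμ'⟩) c' hsymm' hc'
  refine ⟨E '' Y, ?_, fun k => ⟨((Ordinal.ToType.toOrd (ν k) : Iio _) : Ordinal.{u}), ?_⟩⟩
  · have h1 := Cardinal.mk_image_eq_lift E Y hEinj
    have h2 : Cardinal.lift.{u, u + 1} #(E '' Y) = #(E '' Y) := Cardinal.lift_id'.{u, u + 1} _
    rw [← h2, h1]
    exact Cardinal.lift_lt.mpr hY
  · rintro _ ⟨x, hx, rfl⟩ _ ⟨y, hy, rfl⟩ hne
    have hxy : x ≠ y := fun h => hne (by rw [h])
    have h1 := congrFun (hν x hx y hy hxy) k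
    have h2 := hlt' k x y hxy
    have h3 : c' x y k = Ordinal.ToType.mk ⟨_, h2⟩ := dif_pos h2
    rw [h3] at h1
    rw [← h1]
    simp

end Transfer

end Pool.Agent.Y911.DR
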