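import Mathlib
import Pool.Agent.Y911.DR.Delta

set_option autoImplicit false

/-!
# Sharpness: sets of size `κ⁺`, and infinitely many colourings
-/

open Cardinal Set

namespace Pool.Agent.Y911.DR

universe u v

section Lex

variable {I : Type v} [LinearOrder I] [WellFoundedLT I]

/-- the lexicographic order (`b = false`) and its reverse (`b = true`) -/
def R (b : Bool) (x y : I → Bool) : Prop :=
  ∃ i, (∀ j < i, x j = y j) ∧ x i = b ∧ y i = !b

theorem R_total (b : Bool) {x y : I → Bool} (h : x ≠ y) : R b x y ∨ R b y x := by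
  obtain ⟨d, hd, hd'⟩ := exists_first h
  by_cases hb : x d = b
  · left
    refine ⟨d, hd', hb, ?_⟩
    revert hd hb
    cases x d <;> cases y d <;> cases b <;> simp
  · right
    refine ⟨d, fun j hj => (hd' j hj).symm, ?_, ?_⟩
    · revert hd hb
      cases x d <;> cases y d <;> cases b <;> simp
    · revert hd hb
      cases x d <;> cases y d <;> cases b <;> simp

theorem R_asymm {b : Bool} {x y : I → Bool} (h : R b x y) : ¬ R b y x := by
  rintro ⟨i, h1, h2, h3⟩
  obtain ⟨j, h4, h5, h6⟩ := h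
  rcases lt_trichotomy i j with hij | rfl | hij
  · have := h4 i hij
    rw [h2, h3] at this
    cases b <;> simp at this
  · rw [h3] at h5
    cases b <;> simp at h5
  · have := h1 j hij
    rw [h5, h6] at this
    cases b <;> simp at this

theorem R_flip {b : Bool} {x y : I → Bool} : R (!b) x y ↔ R b y x := by
  constructor
  · rintro ⟨i, h1, h2, h3⟩
    exact ⟨i, fun j hj => (h1 j hj).symm, by simpa using h3, by simpa using h2⟩
  · rintro ⟨i, h1, h2, h3⟩
    exact ⟨i, fun j hj => (h1 j hj).symm, by simpa using h3, by simpa using h2⟩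

/-- well-ordered by `R b` -/
def WO (b : Bool) (Y : Set (I → Bool)) : Prop :=
  ∀ S ⊆ Y, S.Nonempty → ∃ s ∈ S, ∀ t ∈ S, t ≠ s → R b s t

theorem WO.step {b : Bool} {Y : Set (I → Bool)} (hY : WO b Y) {θ : Cardinal.{v}} (hθ : ℵ₀ ≤ θ)
    (J : Set I) (hJ : #J ≤ θ)
    (hd : ∀ x ∈ Y, ∀ y ∈ Y, x ≠ y → ∃ d ∈ J, x d ≠ y d ∧ ∀ i < d, x i = y i)
    (ih : ∀ η ∈ J, ∀ Z : Set (I → Bool), WO b Z →
      (∀ x ∈ Z, ∀ y ∈ Z, x ≠ y → ∃ d < η, x d ≠ y d) → #Z ≤ θ) : #Y ≤ θ := by
  classical
  let A : I → Set (I → Bool) := fun η => {x | x ∈ Y ∧ ∃ s ∈ Y, R b x s ∧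
    (∀ t ∈ Y, R b x t → t ≠ s → R b s t) ∧ x η ≠ s η ∧ ∀ i < η, x i = s i}
  have hA : ∀ η ∈ J, #(A η) ≤ θ := by
    intro η hη
    refine ih η hη (A η) (fun S hS hne => hY S (hS.trans fun x hx => hx.1) hne) ?_
    have haux : ∀ x ∈ A η, ∀ x' ∈ A η, R b x x' → ∃ d < η, x d ≠ x' d := by
      rintro x ⟨hx, s, hs, h1, h2, h3, h4⟩ x' ⟨hx', s', hs', h1', h2', h3', h4'⟩ hxx
      by_contra hcon
      push Not at hcon
      -- values at `η`
      have e1 : x η = b ∧ s η = !b := by
        obtain ⟨i, g1, g2, g3⟩ := h1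
        have hi : i = η := by
          rcases lt_trichotomy i η with h | h | h
          · have := h4 i h
            rw [g2, g3] at this
            cases b <;> simp at this
          · exact h
          · exact absurd (g1 η h) h3
        subst hi
        exact ⟨g2, g3⟩
      have e2 : x' η = b := by
        obtain ⟨i, g1, g2, g3⟩ := h1'
        have hi : i = η := by
          rcases lt_trichotomy i η with h | h | h
          · have := h4' i h
            rw [g2, g3] at this
            cases b <;> simp at this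
          · exact h
          · exact absurd (g1 η h) h3'
        subst hi
        exact g2
      have e3 : R b x' s := ⟨η, fun j hj => (hcon j hj).symm.trans (h4 j hj), e2, e1.2⟩
      by_cases h5 : x' = s
      · rw [h5, e1.2] at e2
        cases b <;> simp at e2
      · exact R_asymm e3 (h2 x' hx' hxx h5)
    intro x hx x' hx' hne
    rcases R_total b hne with h | h
    · exact haux x hx x' hx' h
    · obtain ⟨d, hd1, hd2⟩ := haux x' hx' x hx h
      exact ⟨d, hd1, hd2.symm⟩
  let T : Set (I → Bool) := {x | x ∈ Y ∧ ∀ y ∈ Y, ¬ R b x y}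
  have hT : #T ≤ 1 := by
    rw [Cardinal.mk_le_one_iff_set_subsingleton]
    intro x hx y hy
    by_contra hne
    rcases R_total b hne with h | h
    · exact hx.2 y hy.1 h
    · exact hy.2 x hx.1 h
  have hsub : Y ⊆ T ∪ ⋃ η : J, A η.1 := by
    intro x hx
    by_cases h : ∀ y ∈ Y, ¬ R b x y
    · exact Or.inl ⟨hx, h⟩
    · right
      push Not at h
      obtain ⟨y, hy, hxy⟩ := h
      obtain ⟨s, hs, hs'⟩ := hY {t | t ∈ Y ∧ R b x t} (fun t ht => ht.1) ⟨y, hy, hxy⟩
      have hxs : x ≠ s := by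
        intro h
        have := hs.2
        rw [← h] at this
        exact R_asymm this this
      obtain ⟨d, hdJ, hd1, hd2⟩ := hd x hx s hs.1 hxs
      exact mem_iUnion.mpr ⟨⟨d, hdJ⟩, hx, s, hs.1, hs.2, fun t ht1 ht2 ht3 =>
        hs' t ⟨ht1, ht2⟩ ht3, hd1, hd2⟩
  refine (Cardinal.mk_le_mk_of_subset hsub).trans ?_
  refine (Cardinal.mk_union_le _ _).trans ?_
  have h1 : #(⋃ η : J, A η.1) ≤ θ := by
    refine (Cardinal.mk_iUnion_le_sum_mk).trans ?_
    refine (Cardinal.sum_le_sum _ (fun _ : J => θ) fun i => hA i.1 i.2).trans ?_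
    rw [Cardinal.sum_const']
    exact (mul_le_mul' hJ le_rfl).trans (Cardinal.mul_eq_self hθ).le
  refine (add_le_add (hT.trans (Cardinal.one_le_aleph0.trans hθ)) h1).trans ?_
  rw [Cardinal.add_eq_self hθ]

theorem WO.card {b : Bool} {Y : Set (I → Bool)} (hY : WO b Y) {θ : Cardinal.{v}} (hθ : ℵ₀ ≤ θ)
    (hI : #I ≤ θ) : #Y ≤ θ := by
  have main : ∀ η : I, ∀ Z : Set (I → Bool), WO b Z →
      (∀ x ∈ Z, ∀ y ∈ Z, x ≠ y → ∃ d < η, x d ≠ y d) → #Z ≤ θ := by
    intro η
    induction η using WellFoundedLT.induction with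
    | _ η ih =>
      intro Z hZ hd
      refine hZ.step hθ (Iio η) ((Cardinal.mk_set_le _).trans hI) ?_ fun η' hη' => ih η' hη'
      intro x hx y hy hxy
      obtain ⟨d, hd1, hd2⟩ := exists_first hxy
      obtain ⟨e, he1, he2⟩ := hd x hx y hy hxy
      refine ⟨d, ?_, hd1, hd2⟩
      by_contra h
      simp only [mem_Iio, not_lt] at h
      exact he2 (hd2 e (he1.trans_le h))
  refine hY.step hθ univ ((Cardinal.mk_set_le _).trans hI) ?_ fun η _ => main η
  intro x _ y _ hxy
  obtain ⟨d, hd1, hd2⟩ := exists_first hxy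
  exact ⟨d, mem_univ _, hd1, hd2⟩

end Lex

/-- Two colours suffice to avoid monochromatic sets of more than `κ` points. -/
theorem sierpinski (κ : Cardinal.{u}) (hκ : ℵ₀ ≤ κ) :
    ∃ c : Branch κ → Branch κ → Ordinal.{u}, (∀ x y, c x y = c y x) ∧ (∀ x y, c x y < 2) ∧
      ∀ (Y : Set (Branch κ)) (ν : Ordinal.{u}), Mono c ν Y → #Y ≤ Cardinal.lift.{u + 1} κ := by
  classical
  let W : Branch κ → Branch κ → Prop := WellOrderingRel
  have hWt : ∀ {x y : Branch κ}, x ≠ y → ¬ W x y → W y x := by
    intro x y hxy h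
    rcases trichotomous_of WellOrderingRel x y with h1 | h1 | h1
    · exact absurd h1 h
    · exact absurd h1 hxy
    · exact h1
  have hWa : ∀ {x y : Branch κ}, W x y → ¬ W y x := fun h1 h2 => asymm_of WellOrderingRel h1 h2
  have hWi : ∀ x : Branch κ, ¬ W x x := fun x h => irrefl_of WellOrderingRel x h
  have hRi : ∀ x : Branch κ, ¬ R false x x := fun x h => R_asymm h h
  refine ⟨fun x y => if (R false x y ↔ W x y) then 1 else 0, ?_, ?_, ?_⟩
  · intro x y
    by_cases hxy : x = y
    · rw [hxy]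
    · have : (R false x y ↔ W x y) ↔ (R false y x ↔ W y x) := by
        have h1 := R_total false hxy
        have h2 : ¬ (R false x y ∧ R false y x) := fun h => R_asymm h.1 h.2
        have h3 : W x y ∨ W y x := by
          by_cases h : W x y
          · exact Or.inl h
          · exact Or.inr (hWt hxy h)
        have h4 : ¬ (W x y ∧ W y x) := fun h => hWa h.1 h.2
        tauto
      simp only [this]
  · intro x y
    by_cases h : (R false x y ↔ W x y)
    · simp only [h, iff_self, if_true]
      exact one_lt_two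
    · simp only [h, if_false]
      exact zero_lt_two
  · intro Y ν hY
    have hθ : ℵ₀ ≤ Cardinal.lift.{u + 1} κ := by simpa using hκ
    have hI : #(Iio κ.ord) ≤ Cardinal.lift.{u + 1} κ := by
      rw [Cardinal.mk_Iio_ordinal, Cardinal.card_ord]
    have hmin : ∀ S : Set (Branch κ), S.Nonempty → ∃ s ∈ S, ∀ t ∈ S, t ≠ s → W s t := by
      intro S hS
      obtain ⟨s, hs, hs'⟩ := (WellOrderingRel.isWellOrder (α := Branch κ)).wf.has_min S hS
      exact ⟨s, hs, fun t ht hts => hWt hts (hs' t ht)⟩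
    by_cases hν : ν = 1
    · refine WO.card (b := false) ?_ hθ hI
      intro S hS hne
      obtain ⟨s, hs, hs'⟩ := hmin S hne
      refine ⟨s, hs, fun t ht hts => ?_⟩
      have h1 := hY s (hS hs) t (hS ht) (Ne.symm hts)
      have h2 : (R false s t ↔ W s t) := by
        by_contra h3
        simp only [h3, if_false] at h1
        rw [hν] at h1
        exact zero_ne_one h1
      exact h2.mpr (hs' t ht hts)
    · refine WO.card (b := true) ?_ hθ hI
      intro S hS hne
      obtain ⟨s, hs, hs'⟩ := hmin S hne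
      refine ⟨s, hs, fun t ht hts => ?_⟩
      have h1 := hY s (hS hs) t (hS ht) (Ne.symm hts)
      have h2 : ¬ (R false s t ↔ W s t) := by
        intro h3
        simp only [h3, iff_self, if_true] at h1
        exact hν h1.symm
      have h3 := hs' t ht hts
      have h4 : R false t s := by
        rcases R_total false (Ne.symm hts) with h | h
        · exact absurd ⟨fun _ => h3, fun _ => h⟩ h2
        · exact h
      exact (R_flip (b := false)).mpr h4

/-- Three branches do not have the same three first differences. -/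
theorem delta_triple {κ : Cardinal.{u}} {x y z : Branch κ} (hxy : x ≠ y) (hxz : x ≠ z)
    (hyz : y ≠ z) (h1 : Delta x y = Delta x z) (h2 : Delta x y = Delta y z) : False := by
  have d1 := Delta_spec hxy
  have d2 := Delta_spec hxz
  have d3 := Delta_spec hyz
  rw [← h1] at d2
  rw [← h2] at d3
  obtain ⟨i1, n1⟩ := d1
  obtain ⟨i2, n2⟩ := d2
  obtain ⟨i3, n3⟩ := d3
  revert n1 n2 n3
  cases x ⟨Delta x y, i1⟩ <;> cases y ⟨Delta x y, i1⟩ <;>
    cases z ⟨Delta x y, i1⟩ <;> simp

/-- A family of `λ` colourings into two colours without common monochromatic triple, if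
`κ ≤ 2 ^ λ`. -/
theorem bits (κ : Cardinal.{u}) (L : Type u) (hL : κ ≤ 2 ^ #L) :
    ∃ c : L → Branch κ → Branch κ → Ordinal.{u}, (∀ i x y, c i x y = c i y x) ∧
      (∀ i x y, c i x y < 2) ∧ ¬ ∃ x y z : Branch κ, x ≠ y ∧ x ≠ z ∧ y ≠ z ∧
        ∀ i, c i x y = c i x z ∧ c i x y = c i y z := by
  classical
  have h1 : Cardinal.lift.{u} #(Iio κ.ord) ≤ Cardinal.lift.{u + 1} #(L → Bool) := by
    rw [Cardinal.mk_Iio_ordinal, Cardinal.card_ord]
    have h2 : #(L → Bool) = 2 ^ #L := by simp
    rw [h2, Cardinal.lift_lift]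
    exact Cardinal.lift_le.mpr hL
  obtain ⟨g⟩ := Cardinal.lift_mk_le'.mp h1
  refine ⟨fun i x y => if h : Delta x y < κ.ord then (if g ⟨Delta x y, h⟩ i then 1 else 0) else 0,
    fun i x y => ?_, fun i x y => ?_, ?_⟩
  · simp only [Delta_symm x y]
  · simp only
    split_ifs
    · exact one_lt_two
    · exact zero_lt_two
    · exact zero_lt_two
  · rintro ⟨x, y, z, hxy, hxz, hyz, h⟩
    obtain ⟨i1, -⟩ := Delta_spec hxy
    obtain ⟨i2, -⟩ := Delta_spec hxz
    obtain ⟨i3, -⟩ := Delta_spec hyz
    have aux : ∀ p q : Bool, (if p then (1 : Ordinal.{u}) else 0) = (if q then 1 else 0) →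
        p = q := by
      intro p q hpq
      cases p <;> cases q <;> simp at hpq ⊢
    have e1 : g ⟨Delta x y, i1⟩ = g ⟨Delta x z, i2⟩ := by
      funext i
      have h3 := (h i).1
      simp only [i1, i2, dif_pos] at h3
      exact aux _ _ h3
    have e2 : g ⟨Delta x y, i1⟩ = g ⟨Delta y z, i3⟩ := by
      funext i
      have h3 := (h i).2
      simp only [i1, i3, dif_pos] at h3
      exact aux _ _ h3
    exact delta_triple hxy hxz hyz (congrArg Subtype.val (g.injective e1))
      (congrArg Subtype.val (g.injective e2))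

end Pool.Agent.Y911.DR
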